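import Pool.Agent.helper14.AU.Spec

/-! # Project au (MP_d58e27_lc): module PW -/

set_option autoImplicit false

namespace Pool.Agent.helper14.AU

open N68a2faeb N793a5b8e Pool.Agent.helper56.SGE Pool.Agent.helper56.SGE.QSys
  Pool.Agent.helper98.Tsei Pool.Agent.H54.PT

theorem PW (hPD : PD_stmt) : PW_stmt := by
  obtain ⟨p, c, hp⟩ := exists_prog hPD (fun b => [true, b, false])
  refine isPolyTime_of_prog (fun x : List Bool => code (sysW x)) p c (fun x => ?_)
  have h := hp x
  rw [bitEncode_word]
  exact h

end Pool.Agent.helper14.AU
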